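import Mathlib
import Pool.Graph.R_seed8.TH773.PSet.Defs

/-!
# Tall P-ideals, name-points and saturated ideals

The combinatorial core of the proof that `ω*` is covered by nowhere dense P-sets, from `𝔭 = κ`
type hypotheses and a `σ`-complete `ω₁`-saturated ideal.
-/

set_option autoImplicit false

namespace Pool.Agent.H625.Cov

open Set Filter Cardinal

open Pool.Agent.TH773.PSet (OmegaStar)

universe u

/-! ### Almost inclusion -/

/-- almost inclusion -/
def AS (a b : Set ℕ) : Prop := (a \ b).Finite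

theorem AS.of_subset {a b : Set ℕ} (h : a ⊆ b) : AS a b := by
  unfold AS
  rw [Set.sdiff_eq_empty.2 h]
  exact Set.finite_empty

theorem AS.refl (a : Set ℕ) : AS a a := AS.of_subset le_rfl

theorem AS.trans {a b c : Set ℕ} (h : AS a b) (h' : AS b c) : AS a c := by
  refine (Set.Finite.union h h').subset ?_
  intro x hx
  by_cases hb : x ∈ b
  · exact Or.inr ⟨hb, hx.2⟩
  · exact Or.inl ⟨hx.1, hb⟩

theorem AS.union {a b c : Set ℕ} (h : AS a c) (h' : AS b c) : AS (a ∪ b) c := by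
  refine (Set.Finite.union h h').subset ?_
  rintro x ⟨hx | hx, hc⟩
  · exact Or.inl ⟨hx, hc⟩
  · exact Or.inr ⟨hx, hc⟩

theorem AS.inter {a b c : Set ℕ} (h : AS a b) (h' : AS a c) : AS a (b ∩ c) := by
  refine (Set.Finite.union h h').subset ?_
  rintro x ⟨hx, hc⟩
  by_cases hb : x ∈ b
  · exact Or.inr ⟨hx, fun h => hc ⟨hb, h⟩⟩
  · exact Or.inl ⟨hx, hb⟩

/-! ### Points of `ω*` -/

theorem os_finite {u : OmegaStar} {a : Set ℕ} (h : a.Finite) : a ∉ u.1 := by
  intro ha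
  obtain ⟨n, _, hn⟩ := Ultrafilter.eq_pure_of_finite_mem h ha
  exact u.2 n hn

theorem os_mono {u : OmegaStar} {a b : Set ℕ} (h : AS a b) (ha : a ∈ u.1) : b ∈ u.1 := by
  have h1 : (a \ b)ᶜ ∈ u.1 := Ultrafilter.compl_mem_iff_notMem.2 (os_finite h)
  filter_upwards [ha, h1] with x hx hx'
  by_contra hb
  exact hx' ⟨hx, hb⟩

theorem exists_os {b : Set ℕ} (hb : b.Infinite) : ∃ u : OmegaStar, b ∈ u.1 := by
  have : NeBot (cofinite ⊓ 𝓟 b) := by
    rw [inf_comm]
    exact cofinite_inf_principal_neBot_iff.2 hb |> fun h => by rwa [inf_comm]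
  refine ⟨⟨Ultrafilter.of (cofinite ⊓ 𝓟 b), ?_⟩, ?_⟩
  · intro n hn
    have h1 : ({n}ᶜ : Set ℕ) ∈ Ultrafilter.of (cofinite ⊓ 𝓟 b) :=
      (Ultrafilter.of_le _) (mem_inf_of_left ((Set.finite_singleton n).compl_mem_cofinite))
    rw [hn] at h1
    exact h1 rfl
  · exact (Ultrafilter.of_le _) (mem_inf_of_right (mem_principal_self b))

/-! ### Tall P-ideals -/

/-- tall P-ideals (the trivial ideal `univ` is allowed) -/
structure TallP (J : Set (Set ℕ)) : Prop where
  down : ∀ a b, AS a b → b ∈ J → a ∈ J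
  tall : ∀ b : Set ℕ, b.Infinite → ∃ a ⊆ b, a.Infinite ∧ a ∈ J
  pid : ∀ x : ℕ → Set ℕ, (∀ n, x n ∈ J) → ∃ y ∈ J, ∀ n, AS (x n) y

theorem tallP_univ : TallP univ where
  down _ _ _ _ := mem_univ _
  tall b hb := ⟨b, le_rfl, hb, mem_univ _⟩
  pid _ _ := ⟨univ, mem_univ _, fun _ => AS.of_subset (subset_univ _)⟩

theorem TallP.union {J : Set (Set ℕ)} (h : TallP J) {a b : Set ℕ} (ha : a ∈ J) (hb : b ∈ J) :
    a ∪ b ∈ J := by
  obtain ⟨y, hy, hy'⟩ := h.pid (fun n => if n = 0 then a else b) (by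
    intro n
    by_cases hn : n = 0
    · simpa [hn] using ha
    · simpa [hn] using hb)
  refine h.down _ _ ?_ hy
  have h0 := hy' 0
  have h1 := hy' 1
  simp only [if_true, one_ne_zero, if_false] at h0 h1
  exact h0.union h1

/-- a pseudo-intersection of a decreasing sequence of infinite sets -/
theorem exists_pseudo {b : ℕ → Set ℕ} (hb : ∀ n, (b n).Infinite) (hd : ∀ n, b (n + 1) ⊆ b n) :
    ∃ a ⊆ b 0, a.Infinite ∧ ∀ n, AS a (b n) := by
  have hd' : ∀ m n, m ≤ n → b n ⊆ b m := fun m n hmn =>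
    antitone_nat_of_succ_le (f := b) hd hmn
  have : ∀ n k : ℕ, ∃ x, k < x ∧ x ∈ b n := fun n k => by
    obtain ⟨x, hx, hx'⟩ := (hb n).exists_gt k
    exact ⟨x, hx', hx⟩
  choose g hg1 hg2 using this
  let s : ℕ → ℕ := fun n => Nat.rec (g 0 0) (fun m r => g (m + 1) r) n
  have hs : ∀ n, s (n + 1) = g (n + 1) (s n) := fun n => rfl
  have hmono : StrictMono s := strictMono_nat_of_lt_succ fun n => by
    rw [hs]
    exact hg1 _ _
  have hmem : ∀ n, s n ∈ b n := by
    intro n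
    cases n with
    | zero => exact hg2 0 0
    | succ m => exact hg2 _ _
  refine ⟨range s, ?_, Set.infinite_range_of_injective hmono.injective, ?_⟩
  · rintro _ ⟨n, rfl⟩
    exact hd' 0 n (Nat.zero_le _) (hmem n)
  · intro n
    refine ((Set.finite_lt_nat n).image s).subset ?_
    rintro _ ⟨⟨m, rfl⟩, hm⟩
    refine ⟨m, ?_, rfl⟩
    by_contra hmn
    exact hm (hd' n m (not_lt.1 hmn) (hmem m))

/-- countable-countable interpolation -/
theorem exists_interp {x y : ℕ → Set ℕ} (h : ∀ m n, AS (x m) (y n)) :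
    ∃ z, (∀ m, AS (x m) z) ∧ ∀ n, AS z (y n) := by
  refine ⟨{k | ∃ m, k ∈ x m ∧ ∀ i ≤ m, k ∈ y i}, ?_, ?_⟩
  · intro m
    refine ((Set.finite_le_nat m).biUnion (t := fun i => x m \ y i) fun i _ => h m i).subset ?_
    rintro k ⟨hk, hk'⟩
    by_contra hc
    refine hk' ⟨m, hk, fun i hi => ?_⟩
    by_contra hki
    exact hc (mem_biUnion (show i ∈ {i | i ≤ m} from hi) ⟨hk, hki⟩)
  · intro n
    refine ((Set.finite_lt_nat n).biUnion (t := fun i => x i \ y n) fun i _ => h i n).subset ?_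
    rintro k ⟨⟨m, hk, hm⟩, hk'⟩
    refine mem_biUnion (show m ∈ {i | i < n} from ?_) ⟨hk, hk'⟩
    by_contra hmn
    exact hk' (hm n (not_lt.1 hmn))

/-- countable intersections of tall P-ideals -/
theorem tallP_iInter {J : ℕ → Set (Set ℕ)} (h : ∀ n, TallP (J n)) : TallP (⋂ n, J n) where
  down a b hab hb := mem_iInter.2 fun n => (h n).down a b hab (mem_iInter.1 hb n)
  tall b hb := by
    have step : ∀ n (c : Set ℕ), ∃ a : Set ℕ, c.Infinite → a ⊆ c ∧ a.Infinite ∧ a ∈ J n := by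
      intro n c
      by_cases hc : c.Infinite
      · obtain ⟨a, h1, h2, h3⟩ := (h n).tall c hc
        exact ⟨a, fun _ => ⟨h1, h2, h3⟩⟩
      · exact ⟨∅, fun h => absurd h hc⟩
    choose g hg using step
    let s : ℕ → Set ℕ := fun n => Nat.rec (g 0 b) (fun m r => g (m + 1) r) n
    have hs : ∀ n, s (n + 1) = g (n + 1) (s n) := fun n => rfl
    have hinf : ∀ n, (s n).Infinite ∧ s n ∈ J n := by
      intro n
      induction n with
      | zero => exact (hg 0 b hb).2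
      | succ m ih =>
        rw [hs]
        exact (hg (m + 1) _ ih.1).2
    have hd : ∀ n, s (n + 1) ⊆ s n := fun n => by
      rw [hs]
      exact (hg (n + 1) _ (hinf n).1).1
    obtain ⟨a, ha0, ha1, ha2⟩ := exists_pseudo (fun n => (hinf n).1) hd
    refine ⟨a, ha0.trans (hg 0 b hb).1, ha1, mem_iInter.2 fun n => ?_⟩
    exact (h n).down _ _ (ha2 n) (hinf n).2
  pid x hx := by
    have : ∀ n, ∃ y ∈ J n, ∀ m, AS (x m) y := fun n =>
      (h n).pid x fun m => mem_iInter.1 (hx m) n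
    choose y hy hy' using this
    obtain ⟨z, hz, hz'⟩ := exists_interp (x := x) (y := y) fun m n => hy' n m
    exact ⟨z, mem_iInter.2 fun n => (h n).down _ _ (hz' n) (hy n), hz⟩

/-! ### Saturated ideals -/

/-- a proper `σ`-complete ideal on `K` such that every disjoint family of sets outside the ideal
is countable -/
structure SatIdeal {K : Type u} (I : Set (Set K)) : Prop where
  empty : ∅ ∈ I
  proper : Set.univ ∉ I
  down : ∀ A B, A ⊆ B → B ∈ I → A ∈ I
  sigma : ∀ s : ℕ → Set K, (∀ n, s n ∈ I) → (⋃ n, s n) ∈ I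
  sat : ∀ 𝒟 : Set (Set K), (∀ D ∈ 𝒟, D ∉ I) → (∀ D ∈ 𝒟, ∀ E ∈ 𝒟, D ≠ E → Disjoint D E) →
    𝒟.Countable

section Ideal

variable {K : Type u} {I : Set (Set K)}

theorem SatIdeal.union (hI : SatIdeal I) {A B : Set K} (hA : A ∈ I) (hB : B ∈ I) :
    A ∪ B ∈ I := by
  refine hI.down _ _ ?_ (hI.sigma (fun n => if n = 0 then A else B) ?_)
  · rintro x (hx | hx)
    · exact mem_iUnion.2 ⟨0, by simpa using hx⟩
    · exact mem_iUnion.2 ⟨1, by simpa using hx⟩
  · intro n
    by_cases hn : n = 0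
    · simpa [hn] using hA
    · simpa [hn] using hB

/-- every family of sets has a countable subfamily whose union covers its members modulo the
ideal -/
theorem SatIdeal.cover (hI : SatIdeal I) {ι : Type*} (G : ι → Set K) :
    ∃ c : Set ι, c.Countable ∧ ∀ i, G i \ (⋃ j ∈ c, G j) ∈ I := by
  let Φ : Set (Set (Set K)) := {𝒟 | (∀ D ∈ 𝒟, D ∉ I) ∧
    (∀ D ∈ 𝒟, ∀ E ∈ 𝒟, D ≠ E → Disjoint D E) ∧ ∀ D ∈ 𝒟, ∃ i, D ⊆ G i}
  obtain ⟨𝒟, h𝒟⟩ := zorn_subset Φ (by
    intro c hc hchain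
    refine ⟨⋃₀ c, ⟨?_, ?_, ?_⟩, fun s hs => subset_sUnion_of_mem hs⟩
    · rintro D ⟨s, hs, hD⟩
      exact (hc hs).1 D hD
    · rintro D ⟨s, hs, hD⟩ E ⟨t, ht, hE⟩ hne
      rcases hchain.total hs ht with h | h
      · exact (hc ht).2.1 D (h hD) E hE hne
      · exact (hc hs).2.1 D hD E (h hE) hne
    · rintro D ⟨s, hs, hD⟩
      exact (hc hs).2.2 D hD)
  have hcount := hI.sat 𝒟 h𝒟.prop.1 h𝒟.prop.2.1
  have hch : ∀ D : 𝒟, ∃ i, D.1 ⊆ G i := fun D => h𝒟.prop.2.2 D.1 D.2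
  choose g hg using hch
  have := hcount.to_subtype
  refine ⟨range g, countable_range g, fun i => ?_⟩
  by_contra hi
  have hdis : ∀ D ∈ 𝒟, Disjoint (G i \ ⋃ j ∈ range g, G j) D := by
    intro D hD
    rw [Set.disjoint_left]
    rintro x ⟨_, hx⟩ hxD
    exact hx (mem_biUnion (mem_range_self (⟨D, hD⟩ : 𝒟)) (hg ⟨D, hD⟩ hxD))
  have hmem : insert (G i \ ⋃ j ∈ range g, G j) 𝒟 ∈ Φ := by
    refine ⟨?_, ?_, ?_⟩
    · rintro D (rfl | hD)
      · exact hi
      · exact h𝒟.prop.1 D hD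
    · rintro D (rfl | hD) E (rfl | hE) hne
      · exact absurd rfl hne
      · exact hdis E hE
      · exact (hdis D hD).symm
      · exact h𝒟.prop.2.1 D hD E hE hne
    · rintro D (rfl | hD)
      · exact ⟨i, sdiff_subset⟩
      · exact h𝒟.prop.2.2 D hD
  have hin : (G i \ ⋃ j ∈ range g, G j) ∈ 𝒟 :=
    h𝒟.le_of_ge hmem (subset_insert _ _) (mem_insert _ _)
  have h1 := hdis _ hin
  rw [disjoint_self] at h1
  have h2 : (G i \ ⋃ j ∈ range g, G j) = ∅ := h1
  rw [h2] at hi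
  exact hi hI.empty

/-- a countably upwards directed family has a maximum modulo the ideal -/
theorem SatIdeal.exists_max (hI : SatIdeal I) {ι : Type*} [Nonempty ι] (V : ι → Set K)
    (h : ∀ s : ℕ → ι, ∃ i, ∀ n, V (s n) \ V i ∈ I) : ∃ i, ∀ j, V j \ V i ∈ I := by
  obtain ⟨c, hc, hcov⟩ := hI.cover V
  rcases c.eq_empty_or_nonempty with rfl | hne
  · refine ⟨Classical.arbitrary ι, fun j => hI.down _ _ ?_ (hcov j)⟩
    intro x hx
    exact ⟨hx.1, by simp⟩
  · obtain ⟨s, rfl⟩ := hc.exists_eq_range hne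
    obtain ⟨i, hi⟩ := h s
    refine ⟨i, fun j => hI.down _ _ ?_ (hI.union (hcov j) (hI.sigma _ hi))⟩
    intro x hx
    by_cases hx' : x ∈ ⋃ k ∈ range s, V k
    · right
      simp only [mem_range, iUnion_exists, iUnion_iUnion_eq', mem_iUnion] at hx'
      obtain ⟨n, hn⟩ := hx'
      exact mem_iUnion.2 ⟨n, hn, hx.2⟩
    · exact Or.inl ⟨hx.1, hx'⟩

/-- a countably downwards directed family has a minimum modulo the ideal -/
theorem SatIdeal.exists_min (hI : SatIdeal I) {ι : Type*} [Nonempty ι] (V : ι → Set K)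
    (h : ∀ s : ℕ → ι, ∃ i, ∀ n, V i \ V (s n) ∈ I) : ∃ i, ∀ j, V i \ V j ∈ I := by
  have key : ∀ i j, (V i)ᶜ \ (V j)ᶜ = V j \ V i := fun i j => by
    ext x
    simp only [Set.mem_sdiff, mem_compl_iff, not_not]
    tauto
  obtain ⟨i, hi⟩ := hI.exists_max (fun i => (V i)ᶜ) (fun s => by
    obtain ⟨i, hi⟩ := h s
    exact ⟨i, fun n => by
      rw [key]
      exact hi n⟩)
  exact ⟨i, fun j => by
    have := hi j
    rwa [key] at this⟩

end Ideal

/-! ### Name-points -/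

section NP

variable {K : Type u}

/-- the value of `a` at the name-point `t` -/
def V (t : K → OmegaStar) (a : Set ℕ) : Set K := {δ | a ∈ (t δ).1}

theorem V_mono {t : K → OmegaStar} {a b : Set ℕ} (h : AS a b) : V t a ⊆ V t b :=
  fun _ hδ => os_mono h hδ

theorem V_inter {t : K → OmegaStar} {a b : Set ℕ} : V t (a ∩ b) = V t a ∩ V t b := by
  ext δ
  exact inter_mem_iff

theorem V_union {t : K → OmegaStar} {a b : Set ℕ} : V t (a ∪ b) = V t a ∪ V t b := by
  ext δ
  exact Ultrafilter.union_mem_iff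

theorem V_finite {t : K → OmegaStar} {a : Set ℕ} (h : a.Finite) : V t a = ∅ := by
  ext δ
  exact ⟨fun h' => os_finite h h', fun h' => h'.elim⟩

variable {I : Set (Set K)}

/-- every tall P-ideal has a member of maximal value -/
theorem exists_best (hI : SatIdeal I) (t : K → OmegaStar) {J : Set (Set ℕ)} (hJ : TallP J) :
    ∃ x ∈ J, ∀ y ∈ J, V t y \ V t x ∈ I := by
  obtain ⟨a, _, _, ha⟩ := hJ.tall Set.univ Set.infinite_univ
  have : Nonempty J := ⟨⟨a, ha⟩⟩
  obtain ⟨x, hx⟩ := hI.exists_max (fun x : J => V t x.1) (fun s => by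
    obtain ⟨y, hy, hy'⟩ := hJ.pid (fun n => (s n).1) fun n => (s n).2
    refine ⟨⟨y, hy⟩, fun n => ?_⟩
    have : V t (s n).1 \ V t y = ∅ := Set.sdiff_eq_empty.2 (V_mono (hy' n))
    show V t (s n).1 \ V t y ∈ I
    rw [this]
    exact hI.empty)
  exact ⟨x.1, x.2, fun y hy => hx ⟨y, hy⟩⟩

/-- the best tall P-ideal for a name-point -/
theorem exists_ideal (hI : SatIdeal I) (t : K → OmegaStar) :
    ∃ (J : Set (Set ℕ)) (B : Set K), TallP J ∧ (∀ x ∈ J, V t x \ B ∈ I) ∧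
      ∀ J' : Set (Set ℕ), TallP J' → ∃ x ∈ J', B \ V t x ∈ I := by
  let ι := {J : Set (Set ℕ) // TallP J}
  have : Nonempty ι := ⟨⟨Set.univ, tallP_univ⟩⟩
  have hb : ∀ J : ι, ∃ x ∈ J.1, ∀ y ∈ J.1, V t y \ V t x ∈ I := fun J => exists_best hI t J.2
  choose x hx hx' using hb
  obtain ⟨J, hJ⟩ := hI.exists_min (fun J : ι => V t (x J)) (fun s => by
    refine ⟨⟨_, tallP_iInter fun n => (s n).2⟩, fun n => ?_⟩
    exact hx' (s n) _ (mem_iInter.1 (hx ⟨_, tallP_iInter fun n => (s n).2⟩) n))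
  exact ⟨J.1, V t (x J), J.2, fun y hy => hx' J y hy, fun J' hJ' => ⟨x ⟨J', hJ'⟩, hx ⟨J', hJ'⟩,
    hJ ⟨J', hJ'⟩⟩⟩

/-! ### Sequences and functions -/

/-- the union of the sets `a m` cut from below by `f m` -/
def cut (a : ℕ → Set ℕ) (f : ℕ → ℕ) : Set ℕ := {n | ∃ m, n ∈ a m ∧ f m ≤ n}

theorem as_cut (a : ℕ → Set ℕ) (f : ℕ → ℕ) (m : ℕ) : AS (a m) (cut a f) := by
  refine (Set.finite_lt_nat (f m)).subset ?_
  rintro n ⟨hn, hn'⟩
  by_contra h
  exact hn' ⟨m, hn, not_lt.1 h⟩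

theorem cut_as {a : ℕ → Set ℕ} (ha : Monotone a) {f g : ℕ → ℕ} {N : ℕ}
    (h : ∀ n, N ≤ n → f n ≤ g n) : AS (cut a g) (cut a f) := by
  refine (Set.finite_lt_nat (f N)).subset ?_
  rintro n ⟨⟨m, hm, hm'⟩, hn⟩
  rcases le_total N m with hNm | hNm
  · exact absurd ⟨m, hm, (h m hNm).trans hm'⟩ hn
  · by_contra h'
    exact hn ⟨N, ha hNm hm, not_lt.1 h'⟩

/-- countably many functions are dominated by one -/
theorem exists_dom_nat (f : ℕ → ℕ → ℕ) : ∃ g : ℕ → ℕ, ∀ k, ∀ n, k ≤ n → f k n ≤ g n :=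
  ⟨fun n => (Finset.range (n + 1)).sup fun k => f k n, fun _ n hkn =>
    Finset.le_sup (f := fun k => f k n) (Finset.mem_range.2 (Nat.lt_succ_of_le hkn))⟩

theorem exists_dom_countable {ι : Type*} {c : Set ι} (hc : c.Countable) (f : ι → ℕ → ℕ) :
    ∃ g : ℕ → ℕ, ∀ i ∈ c, ∃ N, ∀ n, N ≤ n → f i n ≤ g n := by
  rcases c.eq_empty_or_nonempty with rfl | hne
  · exact ⟨fun _ => 0, fun i hi => hi.elim⟩
  · obtain ⟨s, rfl⟩ := hc.exists_eq_range hne
    obtain ⟨g, hg⟩ := exists_dom_nat fun k => f (s k)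
    refine ⟨g, ?_⟩
    rintro _ ⟨k, rfl⟩
    exact ⟨k, hg k⟩

/-- the function giving the cut of minimal value -/
theorem exists_cut (hI : SatIdeal I) (t : K → OmegaStar) {a : ℕ → Set ℕ} (ha : Monotone a) :
    ∃ f : ℕ → ℕ, ∀ g : ℕ → ℕ, V t (cut a f) \ V t (cut a g) ∈ I := by
  obtain ⟨f, hf⟩ := hI.exists_min (fun f : ℕ → ℕ => V t (cut a f)) (fun s => by
    obtain ⟨g, hg⟩ := exists_dom_nat s
    refine ⟨g, fun n => ?_⟩
    have : V t (cut a g) \ V t (cut a (s n)) = ∅ :=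
      Set.sdiff_eq_empty.2 (V_mono (cut_as ha (hg n)))
    show V t (cut a g) \ V t (cut a (s n)) ∈ I
    rw [this]
    exact hI.empty)
  exact ⟨f, hf⟩

end NP

/-! ### The tall P-ideals given by small families -/

/-- every family of fewer than `κ` sets, all finite subfamilies of which have an infinite
intersection, has an infinite pseudo-intersection -/
def PHyp (κ : Cardinal.{0}) : Prop :=
  ∀ F : Set (Set ℕ), #F < κ → (∀ G : Finset (Set ℕ), (G : Set (Set ℕ)) ⊆ F →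
    (⋂₀ (G : Set (Set ℕ))).Infinite) → ∃ x : Set ℕ, x.Infinite ∧ ∀ b ∈ F, AS x b

/-- every family of fewer than `κ` functions is dominated by one function -/
def DHyp (κ : Cardinal.{0}) : Prop :=
  ∀ F : Set (ℕ → ℕ), #F < κ → ∃ h : ℕ → ℕ, ∀ f ∈ F, ∃ N, ∀ n, N ≤ n → f n ≤ h n

/-- the sets `x` for which there is a countable set of points of `ω*` outside whose union all
members of `M` are almost disjoint from `x` -/
def JM (M : Set (Set ℕ)) : Set (Set ℕ) :=
  {x | ∃ T : ℕ → OmegaStar, ∀ b ∈ M, (∀ l, b ∉ (T l).1) → (x ∩ b).Finite}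

theorem tallP_JM {κ : Cardinal.{0}} (hκ : ℵ₀ ≤ κ) (hP : PHyp κ) (hD : DHyp κ)
    {M : Set (Set ℕ)} (hM : #M < κ) : TallP (JM M) where
  down a b hab := by
    rintro ⟨T, hT⟩
    refine ⟨T, fun c hc hc' => ?_⟩
    refine (Set.Finite.union hab (hT c hc hc')).subset ?_
    rintro x ⟨hx, hx'⟩
    by_cases hb : x ∈ b
    · exact Or.inr ⟨hb, hx'⟩
    · exact Or.inl ⟨hx, hb⟩
  tall b hb := by
    obtain ⟨W, hW⟩ := exists_os hb
    let F : Set (Set ℕ) := {c | (c ∈ M ∨ ∃ d ∈ M, c = dᶜ) ∧ c ∈ W.1}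
    have hF : #(insert b F : Set (Set ℕ)) < κ := by
      have h1 : #(M ∪ compl '' M ∪ {b} : Set (Set ℕ)) < κ := by
        refine (mk_union_le _ _).trans_lt (add_lt_of_lt hκ ((mk_union_le _ _).trans_lt
          (add_lt_of_lt hκ hM (mk_image_le.trans_lt hM))) ?_)
        rw [mk_singleton]
        exact one_lt_aleph0.trans_le hκ
      refine (mk_le_mk_of_subset ?_).trans_lt h1
      rintro c (rfl | ⟨hc | ⟨d, hd, rfl⟩, _⟩)
      · exact Or.inr rfl
      · exact Or.inl (Or.inl hc)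
      · exact Or.inl (Or.inr ⟨d, hd, rfl⟩)
    obtain ⟨x, hx, hx'⟩ := hP _ hF (by
      intro G hG
      have h1 : ⋂₀ (G : Set (Set ℕ)) ∈ W.1 := by
        refine (sInter_mem G.finite_toSet).2 fun c hc => ?_
        rcases hG hc with rfl | h
        · exact hW
        · exact h.2
      exact fun hfin => os_finite hfin h1)
    have hxb : AS x b := hx' b (mem_insert _ _)
    refine ⟨x ∩ b, inter_subset_right, ?_, fun _ => W, ?_⟩
    · intro hfin
      refine hx ((Set.Finite.union hxb hfin).subset ?_)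
      intro k hk
      by_cases hkb : k ∈ b
      · exact Or.inr ⟨hk, hkb⟩
      · exact Or.inl ⟨hk, hkb⟩
    · intro c hc hc'
      have h1 : cᶜ ∈ W.1 := Ultrafilter.compl_mem_iff_notMem.2 (hc' 0)
      have h2 : AS x cᶜ := hx' _ (mem_insert_of_mem _ ⟨Or.inr ⟨c, hc, rfl⟩, h1⟩)
      refine h2.subset ?_
      rintro k ⟨⟨hk, _⟩, hkc⟩
      exact ⟨hk, fun h => h hkc⟩
  pid x hx := by
    choose T hT using hx
    let M' : Set (Set ℕ) := {b | b ∈ M ∧ ∀ n l, b ∉ (T n l).1}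
    have hfin : ∀ b ∈ M', ∀ n, (x n ∩ b).Finite := fun b hb n => hT n b hb.1 (hb.2 n)
    have hbd : ∀ b : M', ∀ n, ∃ k, ∀ i ∈ x n ∩ b.1, i < k := by
      intro b n
      obtain ⟨k, hk⟩ := (hfin b.1 b.2 n).bddAbove
      exact ⟨k + 1, fun i hi => Nat.lt_succ_of_le (hk hi)⟩
    choose f hf using hbd
    obtain ⟨h, hh⟩ := hD (range f) (mk_range_le.trans_lt
      ((mk_le_mk_of_subset fun b hb => hb.1).trans_lt hM))
    refine ⟨cut x h, ⟨fun j => T (Nat.unpair j).1 (Nat.unpair j).2, ?_⟩, as_cut x h⟩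
    intro b hb hb'
    have hbM : b ∈ M' := ⟨hb, fun n l => by
      have h1 : b ∉ (T (Nat.unpair (Nat.pair n l)).1 (Nat.unpair (Nat.pair n l)).2).1 :=
        hb' (Nat.pair n l)
      rwa [Nat.unpair_pair] at h1⟩
    obtain ⟨N, hN⟩ := hh (f ⟨b, hbM⟩) (mem_range_self _)
    refine ((Set.finite_lt_nat N).biUnion (t := fun n => x n ∩ b) fun n _ =>
      hfin b hbM n).subset ?_
    rintro i ⟨⟨n, hn, hn'⟩, hib⟩
    by_cases hnN : n < N
    · exact mem_biUnion (show n ∈ {i | i < N} from hnN) ⟨hn, hib⟩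
    · have h1 := hf ⟨b, hbM⟩ n i ⟨hn, hib⟩
      have h2 := hN n (not_lt.1 hnN)
      omega

/-! ### Countably many name-points controlling a name-point -/

section Main

variable {K : Type u} {I : Set (Set K)}

/-- For every name-point `t` there are a tall P-ideal `J`, a value `B`, and countably many
name-points `s k` such that the members of `J` have value at most `B`, and for every increasing
sequence `a` whose cuts all have a value meeting `B` in a set outside the ideal, some `a m` has a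
value outside the ideal at some `s k`. -/
theorem exists_control (hI : SatIdeal I) {κ : Cardinal.{0}} (hκ : ℵ₀ ≤ κ) (hP : PHyp κ)
    (hD : DHyp κ) (M : K → Set (Set ℕ)) (hM : ∀ δ, #(M δ) < κ) (hfine : ∀ a, {δ | a ∉ M δ} ∈ I)
    (t : K → OmegaStar) :
    ∃ (J : Set (Set ℕ)) (B : Set K) (s : ℕ → K → OmegaStar), TallP J ∧
      (∀ x ∈ J, V t x \ B ∈ I) ∧
      ∀ a : ℕ → Set ℕ, Monotone a → (∀ k m, V (s k) (a m) ∈ I) →
        ∃ f : ℕ → ℕ, V t (cut a f) ∩ B ∈ I := by
  obtain ⟨J, B, hJ, hJB, hJmin⟩ := exists_ideal hI t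
  have h1 : ∀ δ, ∃ x ∈ JM (M δ), B \ V t x ∈ I := fun δ =>
    hJmin _ (tallP_JM hκ hP hD (hM δ))
  choose x hx hxB using h1
  choose T hT using hx
  refine ⟨J, B, fun k δ => T δ k, hJ, hJB, ?_⟩
  intro a ha hs
  obtain ⟨f, hf⟩ := exists_cut hI t ha
  refine ⟨f, ?_⟩
  -- the set of the bad indices is in the ideal
  have hbad : (⋃ m, {δ | a m ∉ M δ}) ∪ (⋃ j : ℕ, V (fun δ => T δ (Nat.unpair j).1)
      (a (Nat.unpair j).2)) ∈ I :=
    hI.union (hI.sigma _ fun m => hfine (a m)) (hI.sigma _ fun j => hs _ _)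
  obtain ⟨δ, hδ⟩ : ∃ δ, δ ∉ (⋃ m, {δ | a m ∉ M δ}) ∪ (⋃ j : ℕ, V (fun δ => T δ (Nat.unpair j).1)
      (a (Nat.unpair j).2)) := by
    by_contra hcon
    push Not at hcon
    exact hI.proper (hI.down _ _ (fun δ _ => hcon δ) hbad)
  have hδ1 : ∀ m, a m ∈ M δ := by
    intro m
    by_contra h
    exact hδ (Or.inl (mem_iUnion.2 ⟨m, h⟩))
  have hδ2 : ∀ k m, a m ∉ (T δ k).1 := by
    intro k m h
    refine hδ (Or.inr (mem_iUnion.2 ⟨Nat.pair k m, ?_⟩))
    show a (Nat.unpair (Nat.pair k m)).2 ∈ (T δ (Nat.unpair (Nat.pair k m)).1).1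
    rw [Nat.unpair_pair]
    exact h
  have hfin : ∀ m, (x δ ∩ a m).Finite := fun m => hT δ (a m) (hδ1 m) fun l => hδ2 l m
  have hbd : ∀ m, ∃ k, ∀ i ∈ x δ ∩ a m, i < k := by
    intro m
    obtain ⟨k, hk⟩ := (hfin m).bddAbove
    exact ⟨k + 1, fun i hi => Nat.lt_succ_of_le (hk hi)⟩
  choose g hg using hbd
  have hdis : cut a g ∩ x δ = ∅ := by
    ext i
    simp only [mem_inter_iff, mem_empty_iff_false, iff_false, not_and]
    rintro ⟨m, hm, hm'⟩ hi
    exact absurd (hg m i ⟨hi, hm⟩) (not_lt.2 hm')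
  refine hI.down _ _ ?_ (hI.union (hf g) (hxB δ))
  rintro ε ⟨hε, hεB⟩
  by_cases h : ε ∈ V t (cut a g)
  · refine Or.inr ⟨hεB, fun h' => ?_⟩
    have h2 : ε ∈ V t (cut a g ∩ x δ) := by
      rw [V_inter]
      exact ⟨h, h'⟩
    rw [hdis, V_finite Set.finite_empty] at h2
    exact h2
  · exact Or.inl ⟨hε, h⟩

/-- an uncountable almost disjoint family of infinite subsets of an infinite set -/
theorem exists_ad {b : Set ℕ} (hb : b.Infinite) :
    ∃ A : (ℕ → Bool) → Set ℕ, (∀ x, A x ⊆ b) ∧ (∀ x, (A x).Infinite) ∧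
      ∀ x y, x ≠ y → (A x ∩ A y).Finite := by
  -- an injective map from finite sequences to `b`
  have := hb.to_subtype
  obtain ⟨e, he⟩ : ∃ e : List Bool → b, Function.Injective e := by
    have : Nonempty (List Bool ↪ b) := by
      obtain ⟨g⟩ : Nonempty (ℕ ↪ b) := ⟨Infinite.natEmbedding b⟩
      exact ⟨(Encodable.encode' (List Bool)).trans g⟩
    obtain ⟨g⟩ := this
    exact ⟨g, g.injective⟩
  refine ⟨fun x => range fun n => (e (List.ofFn fun i : Fin n => x i) : ℕ), ?_, ?_, ?_⟩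
  · rintro x _ ⟨n, rfl⟩
    exact (e _).2
  · intro x
    refine Set.infinite_range_of_injective ?_
    intro n m hnm
    have h1 := he (Subtype.ext hnm)
    have h2 := congrArg List.length h1
    simpa using h2
  · intro x y hxy
    obtain ⟨k, hk⟩ := Function.ne_iff.1 hxy
    refine ((Set.finite_le_nat k).image fun n => (e (List.ofFn fun i : Fin n => x i) : ℕ)).subset ?_
    rintro _ ⟨⟨n, rfl⟩, ⟨m, hm⟩⟩
    refine ⟨n, ?_, rfl⟩
    have h1 := he (Subtype.ext hm)
    have h2 := congrArg List.length h1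
    simp only [List.length_ofFn] at h2
    subst h2
    by_contra hn
    have hn' : k < m := by
      simpa using hn
    have h3 := List.ofFn_injective h1
    exact hk (congrFun h3 ⟨k, hn'⟩).symm

/-- The main combinatorial theorem: every point of `ω*` is disjoint from a tall P-ideal. -/
theorem exists_tallP (hI : SatIdeal I) {κ : Cardinal.{0}} (hκ : ℵ₀ ≤ κ) (hP : PHyp κ)
    (hD : DHyp κ) (M : K → Set (Set ℕ)) (hM : ∀ δ, #(M δ) < κ) (hfine : ∀ a, {δ | a ∉ M δ} ∈ I)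
    (U : OmegaStar) : ∃ J, TallP J ∧ ∀ x ∈ J, x ∉ U.1 := by
  choose J B s hJ hJB hs using exists_control hI hκ hP hD M hM hfine
  -- a countable set of name-points
  let A : List ℕ → K → OmegaStar := fun l => l.foldr (fun k t => s t k) (fun _ => U)
  have hA : ∀ l k, s (A l) k = A (k :: l) := fun l k => rfl
  obtain ⟨g, hg⟩ := exists_surjective_nat (List ℕ)
  let t : ℕ → K → OmegaStar := fun n => A (g n)
  have ht0 : ∃ n, t n = fun _ => U := by
    obtain ⟨n, hn⟩ := hg []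
    exact ⟨n, by show A (g n) = _; rw [hn]; rfl⟩
  have hts : ∀ n k, ∃ m, t m = s (t n) k := by
    intro n k
    obtain ⟨m, hm⟩ := hg (k :: g n)
    exact ⟨m, by show A (g m) = s (A (g n)) k; rw [hm, hA]⟩
  have hJt : TallP (⋂ n, J (t n)) := tallP_iInter fun n => hJ (t n)
  refine ⟨{x | x ∈ ⋂ n, J (t n) ∧ ∀ n, V (t n) x ∈ I}, ⟨?_, ?_, ?_⟩, ?_⟩
  · rintro a b hab ⟨hb, hb'⟩
    exact ⟨hJt.down _ _ hab hb, fun n => hI.down _ _ (V_mono hab) (hb' n)⟩
  · intro b hb
    obtain ⟨b', hb'1, hb'2, hb'3⟩ := hJt.tall b hb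
    obtain ⟨D, hD1, hD2, hD3⟩ := exists_ad hb'2
    have hcount : ∀ n, {x | V (t n) (D x) ∉ I}.Countable := by
      intro n
      have hne : ∀ x, V (t n) (D x) ∉ I → (V (t n) (D x)).Nonempty := by
        intro x hx
        by_contra h
        rw [not_nonempty_iff_eq_empty] at h
        rw [h] at hx
        exact hx hI.empty
      have hdis : ∀ x y, x ≠ y → Disjoint (V (t n) (D x)) (V (t n) (D y)) := by
        intro x y hxy
        rw [disjoint_iff_inter_eq_empty, ← V_inter, V_finite (hD3 x y hxy)]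
      have hinj : InjOn (fun x => V (t n) (D x)) {x | V (t n) (D x) ∉ I} := by
        intro x hx y hy hxy
        by_contra hne'
        have h1 := hdis x y hne'
        simp only at hxy
        rw [← hxy, disjoint_self] at h1
        have := hne x hx
        rw [h1] at this
        exact this.ne_empty rfl
      refine MapsTo.countable_of_injOn (mapsTo_image _ _) hinj ?_
      refine hI.sat _ ?_ ?_
      · rintro _ ⟨x, hx, rfl⟩
        exact hx
      · rintro _ ⟨x, hx, rfl⟩ _ ⟨y, hy, rfl⟩ hxy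
        exact hdis x y fun h => hxy (by rw [h])
    have hunc : ∃ x, x ∉ ⋃ n, {x | V (t n) (D x) ∉ I} := by
      by_contra hcon
      push Not at hcon
      have h1 : (⋃ n, {x | V (t n) (D x) ∉ I}) = (Set.univ : Set (ℕ → Bool)) :=
        eq_univ_of_forall hcon
      have h2 : (Set.univ : Set (ℕ → Bool)).Countable := by
        rw [← h1]
        exact countable_iUnion hcount
      have h3 : #(ℕ → Bool) ≤ ℵ₀ := mk_le_aleph0_iff.2 (countable_univ_iff.1 h2)
      have h4 : #(ℕ → Bool) = 2 ^ ℵ₀ := by simp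
      rw [h4] at h3
      exact absurd h3 (not_le.2 (cantor _))
    obtain ⟨x, hx⟩ := hunc
    refine ⟨D x, (hD1 x).trans hb'1, hD2 x, hJt.down _ _ (AS.of_subset (hD1 x)) hb'3, ?_⟩
    intro n
    by_contra h
    exact hx (mem_iUnion.2 ⟨n, h⟩)
  · intro x hx
    let a : ℕ → Set ℕ := fun m => ⋃ i ∈ Finset.range (m + 1), x i
    have ha0 : ∀ m, x m ⊆ a m := fun m => by
      intro i hi
      simp only [a, mem_iUnion]
      exact ⟨m, Finset.mem_range.2 (Nat.lt_succ_self m), hi⟩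
    have ham : Monotone a := by
      intro m n hmn i hi
      simp only [a, mem_iUnion] at hi ⊢
      obtain ⟨j, hj, hi⟩ := hi
      exact ⟨j, Finset.mem_range.2 ((Finset.mem_range.1 hj).trans_le (by omega)), hi⟩
    have hasucc : ∀ m, a (m + 1) = a m ∪ x (m + 1) := by
      intro m
      ext i
      simp only [a, mem_iUnion, mem_union, Finset.mem_range]
      constructor
      · rintro ⟨j, hj, hi⟩
        by_cases hjm : j < m + 1
        · exact Or.inl ⟨j, hjm, hi⟩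
        · have : j = m + 1 := by omega
          subst this
          exact Or.inr hi
      · rintro (⟨j, hj, hi⟩ | hi)
        · exact ⟨j, by omega, hi⟩
        · exact ⟨m + 1, by omega, hi⟩
    have hazero : a 0 = x 0 := by
      ext i
      simp [a]
    have haJ : ∀ m, a m ∈ (⋂ n, J (t n)) ∧ ∀ n, V (t n) (a m) ∈ I := by
      intro m
      induction m with
      | zero =>
        rw [hazero]
        exact hx 0
      | succ m ih =>
        rw [hasucc]
        refine ⟨hJt.union ih.1 (hx (m + 1)).1, fun n => ?_⟩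
        rw [V_union]
        exact hI.union (ih.2 n) ((hx (m + 1)).2 n)
    obtain ⟨y, hy, hy'⟩ := hJt.pid a fun m => (haJ m).1
    have hf : ∀ n, ∃ f : ℕ → ℕ, V (t n) (cut a f) ∩ B (t n) ∈ I := by
      intro n
      refine hs (t n) a ham fun k m => ?_
      obtain ⟨m', hm'⟩ := hts n k
      rw [← hm']
      exact (haJ m).2 m'
    choose f hf using hf
    obtain ⟨h, hh⟩ := exists_dom_nat f
    refine ⟨y ∩ cut a h, ⟨hJt.down _ _ (AS.of_subset inter_subset_left) hy, fun n => ?_⟩, ?_⟩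
    · rw [V_inter]
      refine hI.down _ _ ?_ (hI.union (hJB (t n) y (mem_iInter.1 hy n)) (hf n))
      rintro δ ⟨hδ, hδ'⟩
      by_cases hB : δ ∈ B (t n)
      · exact Or.inr ⟨V_mono (cut_as ham (hh n)) hδ', hB⟩
      · exact Or.inl ⟨hδ, hB⟩
    · intro m
      exact (AS.of_subset (ha0 m)).trans ((hy' m).inter (as_cut a h m))
  · rintro x ⟨_, hx⟩ hxU
    obtain ⟨n, hn⟩ := ht0
    have h1 := hx n
    rw [hn] at h1
    refine hI.proper (hI.down _ _ ?_ h1)
    intro δ _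
    exact hxU

end Main

end Pool.Agent.H625.Cov
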