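import Mathlib
import Pool.Agent.H625.Cov.Base

/-!
# Martin's Axiom, pseudo-intersections and domination
-/

set_option autoImplicit false

namespace Pool.Agent.H625.Cov

open Set Filter Cardinal

/-- two elements of a preordered set are compatible if they have a common lower bound -/
def Compat {P : Type} [Preorder P] (p q : P) : Prop := ∃ r, r ≤ p ∧ r ≤ q

/-- the countable chain condition: every set of pairwise incompatible elements is countable -/
def CCC (P : Type) [Preorder P] : Prop :=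
  ∀ A : Set P, (∀ p ∈ A, ∀ q ∈ A, p ≠ q → ¬ Compat p q) → A.Countable

/-- `D` is dense: below every element there is an element of `D` -/
def IsDense {P : Type} [Preorder P] (D : Set P) : Prop := ∀ p, ∃ q ∈ D, q ≤ p

/-- `G` is a filter: nonempty, upwards closed, and any two elements of `G` have a common lower
bound in `G` -/
def IsFilt {P : Type} [Preorder P] (G : Set P) : Prop :=
  G.Nonempty ∧ (∀ p ∈ G, ∀ q, p ≤ q → q ∈ G) ∧ ∀ p ∈ G, ∀ q ∈ G, ∃ r ∈ G, r ≤ p ∧ r ≤ q

/-- Martin's Axiom: for every nonempty partially ordered set with the countable chain condition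
and every family of fewer than `𝔠` dense sets there is a filter which meets all of them. -/
def MartinAxiom : Prop :=
  ∀ (P : Type) [PartialOrder P] [Nonempty P], CCC P → ∀ 𝒟 : Set (Set P), #𝒟 < 𝔠 →
    (∀ D ∈ 𝒟, IsDense D) → ∃ G : Set P, IsFilt G ∧ ∀ D ∈ 𝒟, (G ∩ D).Nonempty

/-! ### Booth's theorem -/

/-- the conditions: finite approximations to a pseudo-intersection and finitely many promises -/
structure Booth (F : Set (Set ℕ)) where
  s : Finset ℕ
  t : Finset F

instance (F : Set (Set ℕ)) : PartialOrder (Booth F) where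
  le p q := q.s ⊆ p.s ∧ q.t ⊆ p.t ∧ ∀ k ∈ p.s, k ∉ q.s → ∀ b ∈ q.t, k ∈ b.1
  le_refl p := ⟨Finset.Subset.refl _, Finset.Subset.refl _, fun k hk hk' => absurd hk hk'⟩
  le_trans p q r h h' := by
    refine ⟨h'.1.trans h.1, h'.2.1.trans h.2.1, fun k hk hk' b hb => ?_⟩
    by_cases hq : k ∈ q.s
    · exact h'.2.2 k hq hk' b hb
    · exact h.2.2 k hk hq b (h'.2.1 hb)
  le_antisymm p q h h' := by
    obtain ⟨ps, pt⟩ := p
    obtain ⟨qs, qt⟩ := q
    have h1 : ps = qs := Finset.Subset.antisymm h'.1 h.1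
    have h2 : pt = qt := Finset.Subset.antisymm h'.2.1 h.2.1
    rw [h1, h2]

theorem booth_le {F : Set (Set ℕ)} {p q : Booth F} :
    p ≤ q ↔ q.s ⊆ p.s ∧ q.t ⊆ p.t ∧ ∀ k ∈ p.s, k ∉ q.s → ∀ b ∈ q.t, k ∈ b.1 := Iff.rfl

instance (F : Set (Set ℕ)) : Nonempty (Booth F) := ⟨⟨∅, ∅⟩⟩

theorem booth_ccc (F : Set (Set ℕ)) : CCC (Booth F) := by
  classical
  intro A hA
  refine MapsTo.countable_of_injOn (f := fun p : Booth F => p.s) (t := Set.univ)
    (fun _ _ => Set.mem_univ _) ?_ Set.countable_univ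
  intro p hp q hq hpq
  by_contra hne
  refine hA p hp q hq hne ⟨⟨p.s, p.t ∪ q.t⟩, ?_, ?_⟩
  · exact ⟨Finset.Subset.refl _, Finset.subset_union_left, fun k hk hk' => absurd hk hk'⟩
  · have hpq' : p.s = q.s := hpq
    refine ⟨?_, Finset.subset_union_right, fun k hk hk' => ?_⟩
    · show q.s ⊆ p.s
      rw [hpq']
    · exact absurd hk (by rw [hpq']; exact hk')

theorem pHyp_of_martin (h : MartinAxiom) : PHyp 𝔠 := by
  classical
  intro F hF hfin
  have hinf : ∀ (t : Finset F) (n : ℕ), ∃ k, n < k ∧ ∀ b ∈ t, k ∈ b.1 := by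
    intro t n
    have h1 := hfin (t.image Subtype.val) (by
      intro b hb
      simp only [Finset.coe_image, Set.mem_image] at hb
      obtain ⟨c, _, rfl⟩ := hb
      exact c.2)
    obtain ⟨k, hk, hk'⟩ := h1.exists_gt n
    refine ⟨k, hk', fun b hb => ?_⟩
    exact hk b.1 (by
      simp only [Finset.coe_image, Set.mem_image]
      exact ⟨b, hb, rfl⟩)
  let D : F → Set (Booth F) := fun b => {p | b ∈ p.t}
  let E : ℕ → Set (Booth F) := fun n => {p | ∃ k ∈ p.s, n < k}
  obtain ⟨G, hG, hG'⟩ := h (Booth F) (booth_ccc F) (range D ∪ range E) (by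
    refine (mk_union_le _ _).trans_lt (add_lt_of_lt (aleph0_le_continuum) ?_ ?_)
    · exact mk_range_le.trans_lt hF
    · refine (mk_range_le).trans_lt ?_
      rw [mk_nat]
      exact aleph0_lt_continuum) (by
    rintro _ (⟨b, rfl⟩ | ⟨n, rfl⟩)
    · intro p
      refine ⟨⟨p.s, insert b p.t⟩, Finset.mem_insert_self _ _, Finset.Subset.refl _,
        Finset.subset_insert _ _, fun k hk hk' => absurd hk hk'⟩
    · intro p
      obtain ⟨k, hk, hk'⟩ := hinf p.t n
      refine ⟨⟨insert k p.s, p.t⟩, ⟨k, Finset.mem_insert_self _ _, hk⟩, Finset.subset_insert _ _,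
        Finset.Subset.refl _, fun j hj hj' => ?_⟩
      rcases Finset.mem_insert.1 hj with rfl | hj
      · exact hk'
      · exact absurd hj hj')
  refine ⟨{k | ∃ p ∈ G, k ∈ p.s}, ?_, ?_⟩
  · refine Set.infinite_of_forall_exists_gt fun n => ?_
    obtain ⟨p, hp, k, hk, hnk⟩ := hG' (E n) (Or.inr (mem_range_self n))
    exact ⟨k, ⟨p, hp, hk⟩, hnk⟩
  · intro b hb
    obtain ⟨p, hp, hbp⟩ := hG' (D ⟨b, hb⟩) (Or.inl (mem_range_self _))
    refine (p.s.finite_toSet).subset ?_
    rintro k ⟨⟨q, hq, hk⟩, hkb⟩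
    obtain ⟨r, _, hr1, hr2⟩ := hG.2.2 p hp q hq
    by_contra hkp
    exact hkb (hr1.2.2 k (hr2.1 hk) hkp ⟨b, hb⟩ hbp)

/-! ### Domination -/

theorem dHyp_of_pHyp {κ : Cardinal.{0}} (hκ : ℵ₀ < κ) (h : PHyp κ) : DHyp κ := by
  classical
  intro F hF
  let A : (ℕ → ℕ) → Set ℕ := fun f => {j | ∀ i ≤ (Nat.unpair j).1, f i ≤ (Nat.unpair j).2}
  let C : ℕ → Set ℕ := fun n => {j | n ≤ (Nat.unpair j).1}
  obtain ⟨x, hx, hx'⟩ := h (A '' F ∪ range C) (by
    refine (mk_union_le _ _).trans_lt (add_lt_of_lt hκ.le ?_ ?_)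
    · exact mk_image_le.trans_lt hF
    · refine (mk_range_le).trans_lt ?_
      rw [mk_nat]
      exact hκ) (by
    intro G hG
    have h1 : ∀ b ∈ G, ∀ᶠ k in atTop, ∀ᶠ m in atTop, Nat.pair k m ∈ b := by
      intro b hb
      rcases hG hb with ⟨f, _, rfl⟩ | ⟨n, rfl⟩
      · refine Eventually.of_forall fun k => ?_
        refine eventually_atTop.2 ⟨(Finset.range (k + 1)).sup f, fun m hm => ?_⟩
        show ∀ i ≤ (Nat.unpair (Nat.pair k m)).1, f i ≤ (Nat.unpair (Nat.pair k m)).2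
        rw [Nat.unpair_pair]
        intro i hi
        exact (Finset.le_sup (f := f) (Finset.mem_range.2 (Nat.lt_succ_of_le hi))).trans hm
      · refine eventually_atTop.2 ⟨n, fun k hk => Eventually.of_forall fun m => ?_⟩
        show n ≤ (Nat.unpair (Nat.pair k m)).1
        rw [Nat.unpair_pair]
        exact hk
    have h2 : ∀ᶠ k in atTop, ∀ᶠ m in atTop, ∀ b ∈ G, Nat.pair k m ∈ b := by
      have h3 := (Filter.eventually_all_finset G).2 h1
      filter_upwards [h3] with k hk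
      exact (Filter.eventually_all_finset G).2 hk
    refine Set.infinite_of_forall_exists_gt fun N => ?_
    obtain ⟨k, hk, hkN⟩ := (h2.and (eventually_gt_atTop N)).exists
    obtain ⟨m, hm⟩ := hk.exists
    exact ⟨Nat.pair k m, fun b hb => hm b hb, hkN.trans_le (Nat.left_le_pair k m)⟩)
  have hj : ∀ n, ∃ j ∈ x, n ≤ (Nat.unpair j).1 := by
    intro n
    by_contra hcon
    push Not at hcon
    refine hx ((hx' (C n) (Or.inr (mem_range_self n))).subset ?_)
    intro j hj
    exact ⟨hj, fun h' => absurd h' (not_le.2 (hcon j hj))⟩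
  choose j hj hj' using hj
  refine ⟨fun n => (Nat.unpair (j n)).2, fun f hf => ?_⟩
  obtain ⟨N, hN⟩ := ((hx' (A f) (Or.inl ⟨f, hf, rfl⟩)).image fun i => (Nat.unpair i).1).bddAbove
  refine ⟨N + 1, fun n hn => ?_⟩
  by_contra hcon
  have h1 : j n ∉ A f := fun h' => hcon (h' n (hj' n))
  have h2 : (Nat.unpair (j n)).1 ≤ N := hN ⟨j n, ⟨hj n, h1⟩, rfl⟩
  have := hj' n
  omega

theorem dHyp_of_martin (h : MartinAxiom) : DHyp 𝔠 := dHyp_of_pHyp aleph0_lt_continuum
  (pHyp_of_martin h)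

end Pool.Agent.H625.Cov
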