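import Mathlib
import Pool.Agent.H625.Cov.Base
import Pool.Graph.R_seed8.TH773.PSet.Ground

/-!
# From tall P-ideals to nowhere dense P-sets
-/

set_option autoImplicit false

namespace Pool.Agent.H625.Cov

open Set Filter Cardinal

open Pool.Agent.TH773.PSet (OmegaStar OmegaStarCovered CC CU CF CP CN In Alm in_iff exists_star
  cc_iff)

universe u

theorem alm_iff {a b : Set ℕ} : Alm a b ↔ AS a b := by
  constructor
  · rintro ⟨N, hN⟩
    refine (Set.finite_lt_nat N).subset ?_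
    rintro n ⟨hn, hn'⟩
    by_contra h
    exact hn' (hN n (not_lt.1 h) hn)
  · intro h
    obtain ⟨N, hN⟩ := Set.Finite.bddAbove h
    refine ⟨N + 1, fun n hn ha => ?_⟩
    by_contra hb
    have := hN ⟨ha, hb⟩
    omega

theorem as_compl {a b : Set ℕ} (h : AS a b) : AS bᶜ aᶜ := by
  refine Set.Finite.subset h ?_
  rintro n ⟨hn, hn'⟩
  exact ⟨not_not.1 hn', hn⟩

/-- if every point of `ω*` is disjoint from a tall P-ideal, then `ω*` is covered by nowhere dense
P-sets -/
theorem covered_of_tallP (h : ∀ U : OmegaStar, ∃ J, TallP J ∧ ∀ x ∈ J, x ∉ U.1) :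
    OmegaStarCovered := by
  refine cc_iff.1 fun U hU => ?_
  obtain ⟨u, hu⟩ := exists_star hU
  obtain ⟨J, hJ, hJU⟩ := h u
  have hJne : ∃ a, a ∈ J := by
    obtain ⟨a, _, _, ha⟩ := hJ.tall Set.univ Set.infinite_univ
    exact ⟨a, ha⟩
  have hsub : ∀ S, Sᶜ ∈ J → S ∈ U := by
    intro S hS
    rw [← hu]
    have := hJU _ hS
    rwa [Ultrafilter.compl_notMem_iff] at this
  refine ⟨{S | Sᶜ ∈ J}, ?_, ?_, ?_, fun S hS => hsub S hS⟩
  · refine ⟨?_, fun A hA => hU.inf A (hsub A hA), ?_, ?_⟩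
    · obtain ⟨a, ha⟩ := hJne
      exact ⟨aᶜ, by simpa using ha⟩
    · intro A B hA hAB
      exact hJ.down _ _ (as_compl (alm_iff.1 hAB)) hA
    · intro A B hA hB
      refine ⟨A ∩ B, ?_, inter_subset_left, inter_subset_right⟩
      show (A ∩ B)ᶜ ∈ J
      rw [compl_inter]
      exact hJ.union hA hB
  · intro A hA
    obtain ⟨y, hy, hy'⟩ := hJ.pid (fun n => (A n)ᶜ) hA
    refine ⟨yᶜ, by simpa using hy, fun n => alm_iff.2 ?_⟩
    have := as_compl (hy' n)
    rwa [compl_compl] at this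
  · intro A hA
    obtain ⟨a, haA, ha, haJ⟩ := hJ.tall A (in_iff.1 hA)
    refine ⟨a, aᶜ, in_iff.2 ha, haA, by simpa using haJ, fun n hn => hn.2 hn.1⟩

/-- `ω*` is covered by nowhere dense P-sets, if `𝔭, 𝔟 ≥ κ` and there are families `M δ` of fewer
than `κ` subsets of `ω` and a `σ`-complete `ω₁`-saturated ideal on the set of the indices `δ`, such
that every subset of `ω` belongs to almost all of the families -/
theorem covered_of_satIdeal {K : Type u} {I : Set (Set K)} (hI : SatIdeal I) {κ : Cardinal.{0}}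
    (hκ : ℵ₀ ≤ κ) (hP : PHyp κ) (hD : DHyp κ) (M : K → Set (Set ℕ)) (hM : ∀ δ, #(M δ) < κ)
    (hfine : ∀ a, {δ | a ∉ M δ} ∈ I) : OmegaStarCovered :=
  covered_of_tallP fun U => exists_tallP hI hκ hP hD M hM hfine U

end Pool.Agent.H625.Cov
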