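import Mathlib
import Pool.Agent.H625.Cov.Top
import Pool.Agent.H625.Cov.MA

/-!
# Ideals on a set of size continuum
-/

set_option autoImplicit false

namespace Pool.Agent.H625.Cov

open Set Filter Cardinal

open Pool.Agent.TH773.PSet (OmegaStar OmegaStarCovered)

/-- a well-order all initial segments of which are small -/
theorem exists_wo (K : Type) : ∃ r : K → K → Prop, IsWellOrder K r ∧
    ∀ δ, #{γ | r γ δ} < #K := by
  obtain ⟨r, hr, hr'⟩ := Cardinal.exists_ord_eq K
  refine ⟨r, hr, fun δ => ?_⟩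
  have h1 : (Ordinal.typein r δ).card < #K := by
    rw [← Cardinal.lt_ord, hr']
    exact Ordinal.typein_lt_type r δ
  rwa [Ordinal.card_typein] at h1

theorem not_r_subset {K : Type} {r : K → K → Prop} (hr : IsWellOrder K r) (γ : K) :
    {δ | ¬ r γ δ} ⊆ insert γ {δ | r δ γ} := by
  intro δ hδ
  rcases trichotomous_of r δ γ with h | h | h
  · exact Or.inr h
  · exact Or.inl h
  · exact absurd h hδ

theorem small_init {K : Type} (hK : #K = 𝔠) {r : K → K → Prop} (hr : IsWellOrder K r)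
    (hr' : ∀ δ, #{γ | r γ δ} < #K) (γ : K) : #{δ | ¬ r γ δ} < 𝔠 := by
  refine (mk_le_mk_of_subset (not_r_subset hr γ)).trans_lt ?_
  refine (mk_insert_le).trans_lt (add_lt_of_lt aleph0_le_continuum ?_ ?_)
  · rw [← hK]
    exact hr' γ
  · exact one_lt_aleph0.trans aleph0_lt_continuum

/-- the families given by a well-order of type `𝔠` -/
theorem covered_of_card {K : Type} {I : Set (Set K)} (hI : SatIdeal I) (hK : #K = 𝔠)
    (hsmall : ∀ A : Set K, #A < 𝔠 → A ∈ I) (hP : PHyp 𝔠) (hD : DHyp 𝔠) : OmegaStarCovered := by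
  obtain ⟨r, hr, hr'⟩ := exists_wo K
  have h1 : #K = #(Set ℕ) := by
    rw [hK]
    simp
  obtain ⟨e⟩ := Cardinal.eq.1 h1
  refine covered_of_satIdeal hI aleph0_le_continuum hP hD (fun δ => e '' {γ | r γ δ})
    (fun δ => mk_image_le.trans_lt (hK ▸ hr' δ)) (fun a => ?_)
  refine hsmall _ ((mk_le_mk_of_subset ?_).trans_lt (small_init hK hr hr' (e.symm a)))
  intro δ hδ hγ
  exact hδ ⟨e.symm a, hγ, e.apply_symm_apply a⟩

/-- Ulam's theorem in the form needed here: an `ω₁`-saturated ideal on `𝔠` which contains all sets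
of size less than `𝔠` contradicts the continuum hypothesis -/
theorem not_ch {K : Type} {I : Set (Set K)} (hI : SatIdeal I) (hK : #K = 𝔠)
    (hsmall : ∀ A : Set K, #A < 𝔠 → A ∈ I) : (ℵ₁ : Cardinal.{0}) < 𝔠 := by
  refine lt_of_le_of_ne ?_ ?_
  · rw [← succ_aleph0]
    exact Order.succ_le_of_lt aleph0_lt_continuum
  intro hch
  obtain ⟨r, hr, hr'⟩ := exists_wo K
  have hcount : ∀ δ, ({γ | r γ δ} : Set K).Countable := by
    intro δ
    have h1 := hr' δ
    rw [hK, ← hch, ← succ_aleph0, Order.lt_succ_iff] at h1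
    exact mk_le_aleph0_iff.1 h1
  have hinj : ∀ α : K, ∃ f : {γ | r γ α} → ℕ, Function.Injective f := fun α => by
    have := (hcount α).to_subtype
    exact exists_injective_nat _
  choose f hf using hinj
  let A : ℕ → K → Set K := fun n ξ => {α | ∃ h : r ξ α, f α ⟨ξ, h⟩ = n}
  have hA : ∀ ξ, ∃ n, A n ξ ∉ I := by
    intro ξ
    by_contra hcon
    push Not at hcon
    refine hI.proper (hI.down _ _ ?_ (hI.union (hI.sigma _ hcon)
      (hsmall _ (small_init hK hr hr' ξ))))
    intro α _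
    by_cases h : r ξ α
    · exact Or.inl (mem_iUnion.2 ⟨f α ⟨ξ, h⟩, h, rfl⟩)
    · exact Or.inr h
  choose N hN using hA
  have hunc : ∃ n, ¬ ({ξ | N ξ = n} : Set K).Countable := by
    by_contra hcon
    push Not at hcon
    have h1 : (Set.univ : Set K).Countable := by
      have h2 : (Set.univ : Set K) = ⋃ n, {ξ | N ξ = n} := by
        ext ξ
        simp
      rw [h2]
      exact countable_iUnion hcon
    have h3 : #K ≤ ℵ₀ := mk_le_aleph0_iff.2 (countable_univ_iff.1 h1)
    rw [hK] at h3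
    exact absurd h3 (not_le.2 aleph0_lt_continuum)
  obtain ⟨n, hn⟩ := hunc
  refine hn ?_
  have hdis : ∀ ξ η, ξ ≠ η → Disjoint (A n ξ) (A n η) := by
    intro ξ η hne
    rw [Set.disjoint_left]
    rintro α ⟨h, h'⟩ ⟨k, k'⟩
    have := hf α (h'.trans k'.symm)
    exact hne (congrArg Subtype.val this)
  have hinj : InjOn (A n) {ξ | N ξ = n} := by
    intro ξ hξ η hη h
    by_contra hne
    have h1 := hdis ξ η hne
    rw [← h, disjoint_self] at h1
    have h2 := hN ξ
    rw [hξ, h1] at h2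
    exact h2 hI.empty
  refine MapsTo.countable_of_injOn (mapsTo_image _ _) hinj (hI.sat _ ?_ ?_)
  · rintro _ ⟨ξ, hξ, rfl⟩
    have := hN ξ
    rwa [hξ] at this
  · rintro _ ⟨ξ, hξ, rfl⟩ _ ⟨η, hη, rfl⟩ hne
    exact hdis ξ η fun h => hne (by rw [h])

end Pool.Agent.H625.Cov
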